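import Pool.Agent.L5helper95.BB.S4
import Pool.Agent.L5helper95.BA.A1
import Pool.Agent.Y282.RB.A
import Pool.Agent.Y282.RB.A1
import Pool.Agent.Y282.RB.A2
import Pool.Agent.Y282.RB.A3
import Pool.Agent.Y282.RB.A4
import Pool.Agent.Y282.RB.B1
import Pool.Agent.Y282.RB.B2
import Pool.Agent.Y282.RB.F
import Pool.Agent.Y282.RB.F1
import Pool.Agent.Y282.RB.K
import Pool.Agent.Y282.RB.K2
import Pool.Agent.Y282.RB.N

/-!
# The exact norm on the functions of angular type `2 n`, `p ≥ 100 n ^ 2`: assembly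
-/

set_option autoImplicit false

namespace Pool.Agent.L5helper95.BB

open MeasureTheory
open scoped ENNReal SchwartzMap
open Pool.Agent.Y282.RB (Tn Cn rad Star OneD)
open Pool.Agent.L5helper95.BA (Bo)

lemma Cn_pos {p : ℝ} (hp : 2 ≤ p) (n : ℕ) : 0 < Cn p n := by
  unfold Pool.Agent.Y282.RB.Cn
  refine Finset.prod_pos (fun j _ => ?_)
  have h1 : (1 : ℝ) / p < 1 := by
    rw [div_lt_one (by linarith)]; linarith
  have h2 : (0 : ℝ) < 1 / p := by positivity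
  have h3 : (0 : ℝ) ≤ (j : ℝ) := Nat.cast_nonneg j
  apply div_pos <;> linarith

/-- from the pointwise inequality to all Schwartz functions of the type `2 n` -/
theorem of_star {n : ℕ} (hn : 1 ≤ n) {p : ℝ} (hp : 2 ≤ p) (h : Star n p) (f : 𝓢(ℂ, ℂ))
    (hf : ∀ a z : ℂ, ‖a‖ = 1 → f (a * z) = a ^ (2 * n) * f z) : Bo n p f (Cn p n) := by
  have hpos := Cn_pos hp n
  have h1 : OneD n p (Cn p n) := Pool.Agent.Y282.RB.B2.main Pool.Agent.Y282.RB.B1.main n p hn hp h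
  exact Pool.Agent.Y282.RB.K.main n p (Cn p n) hn hp hpos.le
    (fun g hg hs => Pool.Agent.Y282.RB.A.main Pool.Agent.Y282.RB.A1.main Pool.Agent.Y282.RB.A2.main
      Pool.Agent.Y282.RB.A3.main Pool.Agent.Y282.RB.A4.main n p (Cn p n) (by linarith) hpos.le h1 g hg hs)
    f (fun a z ha => hf a z ha)

/-- the upper bound on every angular type -/
theorem upper {n : ℕ} (hn : 1 ≤ n) {p : ℝ} (hp : 100 * (n : ℝ) ^ 2 ≤ p) {k : ℤ} (f : 𝓢(ℂ, ℂ))
    (hf : ∀ a z : ℂ, ‖a‖ = 1 → f (a * z) = a ^ k * f z) : Bo n p f (Cn p n) := by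
  have hn1 : (1:ℝ) ≤ n := by exact_mod_cast hn
  have hp2 : 2 ≤ p := by nlinarith
  by_cases hk : k = 2 * n
  · have hf' : ∀ a z : ℂ, ‖a‖ = 1 → f (a * z) = a ^ (2 * n) * f z := by
      intro a z ha
      have h3 : k = ((2 * n : ℕ) : ℤ) := by push_cast; exact hk
      rw [hf a z ha, h3, zpow_natCast]
    rcases hn.eq_or_lt with h1 | h1
    · subst h1
      rw [BA.Cn_one' hp2]
      exact BA.Bo_one hp2 f
    · exact of_star hn hp2 (star h1 hp) f hf'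
  · exact (BA.main1 hn hp2 hk f hf).1

theorem sharp {n : ℕ} (hn : 1 ≤ n) {p : ℝ} (hp : 2 ≤ p) {c : ℝ} (hc : c < Cn p n) :
    ∃ f : 𝓢(ℂ, ℂ), HasCompactSupport f ∧ (∀ a z : ℂ, ‖a‖ = 1 → f (a * z) = a ^ (2 * n) * f z) ∧
      ENNReal.ofReal c * eLpNorm (⇑f) (ENNReal.ofReal p) (volume : Measure ℂ) <
        eLpNorm (Tn n f) (ENNReal.ofReal p) (volume : Measure ℂ) := by
  obtain ⟨g, hg, hs, hlt⟩ := Pool.Agent.Y282.RB.F.main Pool.Agent.Y282.RB.A2.main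
    Pool.Agent.Y282.RB.A3.main Pool.Agent.Y282.RB.F1.main n p (max c 0) hn (by linarith)
    (le_max_right _ _) (max_lt hc (Cn_pos hp n))
  obtain ⟨f, hf1, hf2, hf3⟩ := Pool.Agent.Y282.RB.K2.main n g hg hs
  refine ⟨f, hf3, fun a z ha => hf2 a z ha, ?_⟩
  rw [hf1]
  refine lt_of_le_of_lt ?_ hlt
  gcongr
  exact le_max_left _ _

theorem Cn_le {n : ℕ} (hn : 1 ≤ n) {p : ℝ} (hp : 2 ≤ p) :
    Cn p n ≤ (n : ℝ) ^ (1 - 2 / p) * (p - 1) := Pool.Agent.Y282.RB.N.main n p hn hp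

end Pool.Agent.L5helper95.BB
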