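import Mathlib
import Pool.Agent.Y282.RB.C0
import Pool.Agent.Y282.RB.E0

/-!
# The pointwise inequality for `p ≥ 100 n ^ 2`: elementary estimates
-/

set_option autoImplicit false

namespace Pool.Agent.L5helper95.BB

open Finset
open Pool.Agent.Y282.RB

lemma th_nonneg {σ : ℝ} (h1 : σ ≤ 1) (j : ℕ) : 0 ≤ th σ j := by
  unfold th
  have : (0:ℝ) ≤ j := Nat.cast_nonneg j
  apply div_nonneg <;> linarith

lemma th_le {σ : ℝ} (h0 : 0 ≤ σ) (j : ℕ) : th σ j ≤ 1 := by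
  unfold th
  have : (0:ℝ) ≤ j := Nat.cast_nonneg j
  rw [div_le_one (by linarith)]
  linarith

lemma TT_nonneg (n : ℕ) (γ : ℕ → ℝ) : 0 ≤ TT n γ := C0.TT_nonneg n γ

lemma TT_mono {i n : ℕ} (h : i ≤ n) (γ : ℕ → ℝ) : TT i γ ≤ TT n γ := by
  unfold TT
  exact sum_le_sum_of_subset_of_nonneg (range_mono h) fun j _ _ => by positivity

lemma sum_odd (i : ℕ) : ∑ j ∈ range i, (2 * (j : ℝ) + 1) = (i : ℝ) ^ 2 := by
  induction i with
  | zero => simp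
  | succ i ih =>
    rw [sum_range_succ, ih]
    push_cast
    ring

lemma tele (i : ℕ) (γ : ℕ → ℝ) : ∑ j ∈ range i, (γ j - γ (j + 1)) = γ 0 - γ i := by
  induction i with
  | zero => simp
  | succ i ih =>
    rw [sum_range_succ, ih]
    ring

lemma dist_sq {i n : ℕ} (h : i ≤ n) (γ : ℕ → ℝ) : (γ i - γ 0) ^ 2 ≤ (i : ℝ) ^ 2 * TT n γ := by
  rcases Nat.eq_zero_or_pos i with rfl | hi
  · simp
  have hi' : (0:ℝ) < i := by exact_mod_cast hi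
  have h1 := sq_sum_div_le_sum_sq_div (R := ℝ) (range i) (fun j => γ j - γ (j + 1))
    (g := fun j => 2 * (j : ℝ) + 1) (fun j _ => by positivity)
  rw [sum_odd, tele, div_le_iff₀ (by positivity)] at h1
  have h2 : ∑ j ∈ range i, (γ j - γ (j + 1)) ^ 2 / (2 * (j : ℝ) + 1) ≤ TT n γ := TT_mono h γ
  calc (γ i - γ 0) ^ 2 = (γ 0 - γ i) ^ 2 := by ring
    _ ≤ _ := h1
    _ ≤ TT n γ * (i : ℝ) ^ 2 := by gcongr
    _ = _ := by ring

lemma dist_le {i n : ℕ} (h : i ≤ n) (γ : ℕ → ℝ) {t : ℝ} (ht0 : 0 ≤ t) (ht : t ^ 2 = TT n γ) :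
    |γ i - γ 0| ≤ i * t := by
  apply abs_le_of_sq_le_sq _ (by positivity)
  rw [mul_pow, ht]
  exact dist_sq h γ

lemma yy_dist {j n : ℕ} (h : j < n) {σ : ℝ} (h0 : 0 ≤ σ) (h1 : σ ≤ 1) (γ : ℕ → ℝ) {t : ℝ}
    (ht0 : 0 ≤ t) (ht : t ^ 2 = TT n γ) : |yy σ γ j - γ 0| ≤ (j + 1) * t := by
  have e1 := dist_le h.le γ ht0 ht
  have e2 := dist_le (i := j + 1) h γ ht0 ht
  have e3 := th_nonneg h1 j
  have e4 := th_le h0 j
  have e5 : yy σ γ j - γ 0 = th σ j * (γ j - γ 0) + (1 - th σ j) * (γ (j + 1) - γ 0) := by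
    unfold yy; ring
  rw [e5]
  push_cast at e2
  have e6 : |th σ j * (γ j - γ 0)| ≤ th σ j * ((j + 1) * t) := by
    rw [abs_mul, abs_of_nonneg e3]
    apply mul_le_mul_of_nonneg_left _ e3
    linarith
  have e7 : |(1 - th σ j) * (γ (j + 1) - γ 0)| ≤ (1 - th σ j) * ((j + 1) * t) := by
    rw [abs_mul, abs_of_nonneg (by linarith)]
    exact mul_le_mul_of_nonneg_left e2 (by linarith)
  refine (abs_add_le _ _).trans ?_
  linarith

lemma D0_le {n : ℕ} (hn : 1 ≤ n) (γ : ℕ → ℝ) {t : ℝ} (ht0 : 0 ≤ t) (ht : t ^ 2 = TT n γ) :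
    |γ 0 - γ 1| ≤ t := by
  have := dist_le hn γ ht0 ht
  rw [abs_sub_comm] at this
  simpa using this

/-- the weights -/
lemma kk_pos {σ : ℝ} (h0 : 0 < σ) (h1 : σ < 1) (j : ℕ) : 0 < kk σ j := by
  unfold kk
  have : (0:ℝ) ≤ j := Nat.cast_nonneg j
  apply div_pos (by linarith)
  apply mul_pos <;> linarith

lemma kk_le {σ : ℝ} (h0 : 0 ≤ σ) (h1 : σ ≤ 1) (j : ℕ) :
    kk σ (j + 1) ≤ 1 / ((j : ℝ) + 1) + 1 / ((j : ℝ) + 2) := by
  unfold kk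
  have hj : (0:ℝ) ≤ j := Nat.cast_nonneg j
  push_cast
  have e : 1 / ((j : ℝ) + 1) + 1 / ((j : ℝ) + 2) =
      (2 * ((j : ℝ) + 1) + 1) / (((j : ℝ) + 1) * ((j : ℝ) + 2)) := by
    field_simp
    ring
  rw [e]
  apply div_le_div_of_nonneg_left (by positivity) (by positivity)
  nlinarith

lemma kk_le3 {σ : ℝ} (h0 : 0 ≤ σ) (h1 : σ ≤ 1) (j : ℕ) : kk σ (j + 1) * ((j : ℝ) + 2) ≤ 3 := by
  have h := kk_le h0 h1 j
  have hj : (0:ℝ) ≤ j := Nat.cast_nonneg j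
  calc kk σ (j + 1) * ((j : ℝ) + 2) ≤ (1 / ((j : ℝ) + 1) + 1 / ((j : ℝ) + 2)) * ((j : ℝ) + 2) := by
        gcongr
    _ = 2 + 1 / ((j : ℝ) + 1) := by
        field_simp
        ring
    _ ≤ 3 := by
        have : 1 / ((j : ℝ) + 1) ≤ 1 := by
          rw [div_le_one (by positivity)]; linarith
        linarith

/-- the basic identity -/
lemma star_id {σ : ℝ} (h0 : 0 < σ) (h1 : σ < 1) (m : ℕ) (γ : ℕ → ℝ) (hL : Lam σ (m + 1) γ = 1) :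
    (γ 0) ^ 2 - 1 = σ * ((1 - σ) * ∑ j ∈ range m, kk σ (j + 1) * (1 - (yy σ γ (j + 1)) ^ 2) +
      2 * γ 0 * (γ 0 - γ 1) - σ * (γ 0 - γ 1) ^ 2) := by
  unfold Lam at hL
  have hK : 0 < KK σ (m + 1) := by
    unfold KK
    exact sum_pos (fun j _ => kk_pos h0 h1 j) ⟨0, by simp⟩
  rw [div_eq_one_iff_eq hK.ne'] at hL
  unfold KK at hL
  rw [sum_range_succ', sum_range_succ'] at hL
  have e0 : kk σ 0 = 1 / (σ * (1 - σ)) := by
    unfold kk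
    push_cast
    congr 1 <;> ring
  have e1 : yy σ γ 0 = γ 0 - σ * (γ 0 - γ 1) := by
    unfold yy th
    push_cast
    ring
  have e2 : ∑ j ∈ range m, kk σ (j + 1) * (1 - (yy σ γ (j + 1)) ^ 2) =
      ∑ j ∈ range m, kk σ (j + 1) - ∑ j ∈ range m, kk σ (j + 1) * (yy σ γ (j + 1)) ^ 2 := by
    rw [← sum_sub_distrib]
    refine sum_congr rfl fun j _ => ?_
    ring
  have e3 : ∑ j ∈ range m, kk σ (j + 1) * (1 - (yy σ γ (j + 1)) ^ 2) =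
      1 / (σ * (1 - σ)) * ((γ 0 - σ * (γ 0 - γ 1)) ^ 2 - 1) := by
    rw [e2]
    rw [e0, e1] at hL
    linear_combination -hL
  rw [e3]
  have h2 : (1 - σ) ≠ 0 := by linarith
  have h3 : σ ≠ 0 := h0.ne'
  field_simp
  ring

end Pool.Agent.L5helper95.BB
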