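import Pool.Agent.L5helper95.BB.S1

/-!
# The pointwise inequality for `p ≥ 100 n ^ 2`: the cases
-/

set_option autoImplicit false

namespace Pool.Agent.L5helper95.BB

open Finset
open Pool.Agent.Y282.RB

lemma sum_lin (m : ℕ) : ∑ j ∈ range m, ((j : ℝ) + 2) = (m : ℝ) * (m + 3) / 2 := by
  induction m with
  | zero => simp
  | succ m ih =>
    rw [sum_range_succ, ih]
    push_cast
    ring

/-- telescoping bound for the weights -/
lemma harm_step (u : ℝ) (hu : 1 ≤ u) :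
    1 / u + 1 / (u + 1) ≤ (2 * Real.log (u + 1) - 1 / (3 * (u + 1))) - (2 * Real.log u - 1 / (3 * u)) := by
  have hu0 : 0 < u := by linarith
  have h1 := Real.le_log_one_add_of_nonneg (x := 1 / u) (by positivity)
  have e1 : 2 * (1 / u) / (1 / u + 2) = 2 / (2 * u + 1) := by
    field_simp
    ring
  have e2 : Real.log (1 + 1 / u) = Real.log (u + 1) - Real.log u := by
    rw [← Real.log_div (by positivity) (by positivity)]
    congr 1
    field_simp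
  rw [e1, e2] at h1
  have h2 : 1 / u + 1 / (u + 1) ≤ 2 * (2 / (2 * u + 1)) + (1 / (3 * u) - 1 / (3 * (u + 1))) := by
    have e3 : 2 * (2 / (2 * u + 1)) + (1 / (3 * u) - 1 / (3 * (u + 1))) - (1 / u + 1 / (u + 1)) =
        (2 * u - 2) / (3 * u * (u + 1) * (2 * u + 1)) := by
      field_simp
      ring
    have h3 : 0 ≤ (2 * u - 2) / (3 * u * (u + 1) * (2 * u + 1)) := by
      apply div_nonneg (by linarith) (by positivity)
    linarith
  linarith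

lemma harm (J m : ℕ) (hJ : 1 ≤ J) (hJm : J ≤ m + 1) :
    ∑ i ∈ Ico J (m + 1), (1 / (i : ℝ) + 1 / ((i : ℝ) + 1)) ≤
      2 * Real.log ((m : ℝ) + 1) - 2 * Real.log J + 1 / (3 * (J : ℝ)) := by
  have key : ∀ k : ℕ, ∑ i ∈ Ico J (J + k), (1 / (i : ℝ) + 1 / ((i : ℝ) + 1)) ≤
      (2 * Real.log ((J + k : ℕ) : ℝ) - 1 / (3 * ((J + k : ℕ) : ℝ))) - (2 * Real.log J - 1 / (3 * (J : ℝ))) := by
    intro k
    induction k with
    | zero => simp
    | succ k ih =>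
      rw [← add_assoc, sum_Ico_succ_top (by omega)]
      have h := harm_step ((J + k : ℕ) : ℝ) (by exact_mod_cast (by omega : 1 ≤ J + k))
      have e : ((J + k + 1 : ℕ) : ℝ) = ((J + k : ℕ) : ℝ) + 1 := by push_cast; ring
      rw [e]
      linarith
  obtain ⟨k, hk⟩ : ∃ k, m + 1 = J + k := ⟨m + 1 - J, by omega⟩
  have h := key k
  rw [← hk] at h
  have h2 : 0 ≤ 1 / (3 * ((m + 1 : ℕ) : ℝ)) := by positivity
  have e : ((m + 1 : ℕ) : ℝ) = (m : ℝ) + 1 := by push_cast; ring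
  rw [e] at h h2
  linarith

lemma KK_le {σ : ℝ} (h0 : 0 ≤ σ) (h1 : σ ≤ 1) (m : ℕ) :
    ∑ j ∈ range m, kk σ (j + 1) ≤ 2 * Real.log ((m : ℝ) + 1) + 1 / 3 := by
  have h2 := harm 1 m le_rfl (by omega)
  have h3 : ∑ j ∈ range m, kk σ (j + 1) ≤ ∑ i ∈ Ico 1 (m + 1), (1 / (i : ℝ) + 1 / ((i : ℝ) + 1)) := by
    rw [sum_Ico_eq_sum_range]
    simp only [Nat.add_sub_cancel]
    refine sum_le_sum fun j _ => (kk_le h0 h1 j).trans (le_of_eq ?_)
    push_cast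
    ring_nf
  simp only [Nat.cast_one, Real.log_one] at h2
  linarith

/-- the splitting -/
lemma split {a : ℝ} (ha : 0 < a) (m : ℕ) (q : ℕ → ℝ) (h1 : ∀ j < m, q j ≤ 3 * a)
    (h2 : ∀ j < m, q j ≤ 1 / ((j : ℝ) + 1) + 1 / ((j : ℝ) + 2)) (hma : 1 ≤ ((m : ℝ) + 1) * a) :
    ∑ j ∈ range m, q j ≤ 10 / 3 + 2 * Real.log (((m : ℝ) + 1) * a) := by
  set J : ℕ := ⌊1 / a⌋₊ + 1 with hJ
  have hJ1 : ((J : ℝ) - 1) * a ≤ 1 := by
    have : ((⌊1 / a⌋₊ : ℕ) : ℝ) ≤ 1 / a := Nat.floor_le (by positivity)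
    rw [hJ]
    push_cast
    rw [le_div_iff₀ ha] at this
    linarith
  have hJ2 : 1 < (J : ℝ) * a := by
    have : 1 / a < ((⌊1 / a⌋₊ : ℕ) : ℝ) + 1 := Nat.lt_floor_add_one _
    rw [div_lt_iff₀ ha] at this
    rw [hJ]
    push_cast
    linarith
  have hJpos : (0:ℝ) < J := by rw [hJ]; positivity
  have hlog : 0 ≤ Real.log (((m : ℝ) + 1) * a) := Real.log_nonneg hma
  have hsum1 : ∀ M : ℕ, M ≤ m → M + 1 ≤ J → ∑ j ∈ range M, q j ≤ 3 := by
    intro M hM hMJ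
    calc ∑ j ∈ range M, q j ≤ ∑ j ∈ range M, (3 * a) :=
          sum_le_sum fun j hj => h1 j (by rw [mem_range] at hj; omega)
      _ = 3 * ((M : ℝ) * a) := by rw [sum_const, card_range, nsmul_eq_mul]; ring
      _ ≤ 3 := by
          have : (M : ℝ) + 1 ≤ J := by exact_mod_cast hMJ
          nlinarith
  rcases lt_or_ge m J with h | h
  · have := hsum1 m le_rfl (by omega)
    linarith
  · have hJ1' : 1 ≤ J := by omega
    have e1 : ∑ j ∈ range m, q j = ∑ j ∈ range (J - 1), q j + ∑ j ∈ Ico (J - 1) m, q j := by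
      rw [range_eq_Ico, range_eq_Ico, sum_Ico_consecutive _ (Nat.zero_le _) (by omega)]
    have e2 := hsum1 (J - 1) (by omega) (by omega)
    have e3 : ∑ j ∈ Ico (J - 1) m, q j ≤ ∑ i ∈ Ico J (m + 1), (1 / (i : ℝ) + 1 / ((i : ℝ) + 1)) := by
      have : ∑ i ∈ Ico J (m + 1), (1 / (i : ℝ) + 1 / ((i : ℝ) + 1)) =
          ∑ j ∈ Ico (J - 1) m, (1 / ((j : ℝ) + 1) + 1 / ((j : ℝ) + 2)) := by
        have hh := sum_Ico_add' (fun i : ℕ => 1 / (i : ℝ) + 1 / ((i : ℝ) + 1)) (J - 1) m 1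
        rw [Nat.sub_add_cancel hJ1'] at hh
        rw [← hh]
        refine sum_congr rfl fun j _ => ?_
        push_cast
        have : (j : ℝ) + 1 + 1 = (j : ℝ) + 2 := by ring
        rw [this]
      rw [this]
      exact sum_le_sum fun j hj => h2 j (by rw [mem_Ico] at hj; omega)
    have e4 := harm J m hJ1' (by omega)
    have e5 : Real.log (((m : ℝ) + 1) * a) ≥ Real.log ((m : ℝ) + 1) - Real.log J := by
      rw [ge_iff_le, ← Real.log_div (by positivity) (by positivity)]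
      apply Real.log_le_log (by positivity)
      rw [div_le_iff₀ hJpos]
      nlinarith
    have e6 : 1 / (3 * (J : ℝ)) ≤ 1 / 3 := by
      apply one_div_le_one_div_of_le (by norm_num)
      have : (1:ℝ) ≤ J := by exact_mod_cast hJ1'
      linarith
    linarith

/-- common hypotheses: `n = m + 1 ≥ 2`, `100 n ^ 2 σ ≤ 1` -/
structure Hy (m : ℕ) (σ : ℝ) (γ : ℕ → ℝ) (t : ℝ) : Prop where
  m1 : 1 ≤ m
  s0 : 0 < σ
  s1 : σ * (100 * ((m : ℝ) + 1) ^ 2) ≤ 1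
  L : Lam σ (m + 1) γ = 1
  x0 : 0 ≤ γ 0
  t0 : 0 ≤ t
  tt : t ^ 2 = TT (m + 1) γ

namespace Hy

variable {m : ℕ} {σ : ℝ} {γ : ℕ → ℝ} {t : ℝ}

lemma N2 (h : Hy m σ γ t) : (2:ℝ) ≤ (m : ℝ) + 1 := by
  have : (1:ℝ) ≤ m := by exact_mod_cast h.m1
  linarith

lemma s400 (h : Hy m σ γ t) : σ ≤ 1 / 400 := by
  have h1 := h.N2
  have h2 := h.s1
  have h3 := h.s0
  nlinarith [mul_nonneg h3.le (by nlinarith : (0:ℝ) ≤ ((m : ℝ) + 1) ^ 2 - 4)]

lemma u_dist (h : Hy m σ γ t) {j : ℕ} (hj : j < m) :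
    |yy σ γ (j + 1) - γ 0| ≤ ((j : ℝ) + 2) * t := by
  have := yy_dist (j := j + 1) (n := m + 1) (by omega) h.s0.le (by linarith [h.s400]) γ h.t0 h.tt
  push_cast at this
  refine this.trans (le_of_eq ?_)
  ring

lemma D_le (h : Hy m σ γ t) : |γ 0 - γ 1| ≤ t := D0_le (by omega) γ h.t0 h.tt

lemma idn (h : Hy m σ γ t) : (γ 0) ^ 2 - 1 = σ * ((1 - σ) *
    ∑ j ∈ range m, kk σ (j + 1) * (1 - (yy σ γ (j + 1)) ^ 2) +
      2 * γ 0 * (γ 0 - γ 1) - σ * (γ 0 - γ 1) ^ 2) :=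
  star_id h.s0 (by linarith [h.s400]) m γ h.L

/-- the case `γ 0 ≤ 1`: lower bound for `γ 0` -/
lemma low (h : Hy m σ γ t) (hx : γ 0 ≤ 1) :
    1 - (γ 0) ^ 2 ≤ σ * (4 * (((m : ℝ) + 1) * t) ^ 2 + 6 * (((m : ℝ) + 1) * t)) := by
  have hs := h.s400
  have hs0 := h.s0
  have ht0 := h.t0
  have hx0 := h.x0
  have hm : (1:ℝ) ≤ m := by exact_mod_cast h.m1
  have h1 : ∑ j ∈ range m, kk σ (j + 1) * ((yy σ γ (j + 1)) ^ 2 - 1) ≤
      3 * ((m : ℝ) + 1) ^ 2 * t ^ 2 + 6 * m * t := by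
    calc ∑ j ∈ range m, kk σ (j + 1) * ((yy σ γ (j + 1)) ^ 2 - 1)
        ≤ ∑ j ∈ range m, (3 * (((j : ℝ) + 2) * t ^ 2) + 6 * t) := by
          refine sum_le_sum fun j hj => ?_
          rw [mem_range] at hj
          have a1 := h.u_dist hj
          have a2 := kk_le3 hs0.le (by linarith) j
          have a3 := (kk_pos hs0 (by linarith) (j + 1)).le
          set u := yy σ γ (j + 1)
          have hj0 : (0:ℝ) ≤ j := Nat.cast_nonneg j
          have a4 : u ^ 2 - 1 ≤ (((j : ℝ) + 2) * t) ^ 2 + 2 * (((j : ℝ) + 2) * t) := by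
            have b1 : u ^ 2 - 1 ≤ (u - γ 0) ^ 2 + 2 * γ 0 * (u - γ 0) := by nlinarith
            have b2 : (u - γ 0) ^ 2 ≤ (((j : ℝ) + 2) * t) ^ 2 := sq_le_sq' (by linarith [neg_abs_le (u - γ 0)]) ((le_abs_self _).trans a1)
            have b3 : 2 * γ 0 * (u - γ 0) ≤ 2 * (((j : ℝ) + 2) * t) := by
              have c1 : u - γ 0 ≤ ((j : ℝ) + 2) * t := (le_abs_self _).trans a1
              have c2 : 0 ≤ ((j : ℝ) + 2) * t := by positivity
              nlinarith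
            linarith
          calc kk σ (j + 1) * (u ^ 2 - 1) ≤ kk σ (j + 1) * ((((j : ℝ) + 2) * t) ^ 2 + 2 * (((j : ℝ) + 2) * t)) := by
                gcongr
            _ = (kk σ (j + 1) * ((j : ℝ) + 2)) * (((j : ℝ) + 2) * t ^ 2 + 2 * t) := by ring
            _ ≤ 3 * (((j : ℝ) + 2) * t ^ 2 + 2 * t) := by
                apply mul_le_mul_of_nonneg_right a2 (by positivity)
            _ = _ := by ring
      _ = 3 * ((m : ℝ) * (m + 3) / 2) * t ^ 2 + 6 * m * t := by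
          rw [sum_add_distrib, ← mul_sum, ← sum_mul, sum_lin, sum_const, card_range, nsmul_eq_mul]
          ring
      _ ≤ _ := by
          have : (m : ℝ) * (m + 3) / 2 ≤ ((m : ℝ) + 1) ^ 2 := by nlinarith
          have := mul_le_mul_of_nonneg_right this (sq_nonneg t)
          linarith
  have h2 : ∑ j ∈ range m, kk σ (j + 1) * (1 - (yy σ γ (j + 1)) ^ 2) =
      -∑ j ∈ range m, kk σ (j + 1) * ((yy σ γ (j + 1)) ^ 2 - 1) := by
    rw [← sum_neg_distrib]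
    refine sum_congr rfl fun j _ => ?_
    ring
  have h3 := h.idn
  rw [h2] at h3
  set S := ∑ j ∈ range m, kk σ (j + 1) * ((yy σ γ (j + 1)) ^ 2 - 1) with hS
  have h4 : (1 - σ) * S ≤ 3 * ((m : ℝ) + 1) ^ 2 * t ^ 2 + 6 * m * t := by
    have c : 0 ≤ 3 * ((m : ℝ) + 1) ^ 2 * t ^ 2 + 6 * m * t := by positivity
    nlinarith
  have h5 := h.D_le
  have h6 : -(2 * γ 0 * (γ 0 - γ 1)) ≤ 2 * t := by
    have c1 : -(γ 0 - γ 1) ≤ t := (neg_le_abs _).trans h5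
    nlinarith
  have h7 : σ * (γ 0 - γ 1) ^ 2 ≤ ((m : ℝ) + 1) ^ 2 * t ^ 2 := by
    have c1 : (γ 0 - γ 1) ^ 2 ≤ t ^ 2 := sq_le_sq' (by linarith [neg_abs_le (γ 0 - γ 1)]) ((le_abs_self _).trans h5)
    have c2 : (1:ℝ) ≤ ((m : ℝ) + 1) ^ 2 := by nlinarith
    calc σ * (γ 0 - γ 1) ^ 2 ≤ 1 * t ^ 2 := by
          apply mul_le_mul (by linarith) c1 (sq_nonneg _) (by norm_num)
      _ ≤ _ := by gcongr
  have h8 : 1 - (γ 0) ^ 2 = σ * ((1 - σ) * S + -(2 * γ 0 * (γ 0 - γ 1)) + σ * (γ 0 - γ 1) ^ 2) := by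
    linear_combination -h3
  rw [h8]
  apply mul_le_mul_of_nonneg_left _ hs0.le
  nlinarith

/-- `φ_r (γ 0 ^ 2) ≤ (r - 1) T` if `γ 0 ≤ 1` -/
lemma caseA (h : Hy m σ γ t) (hx : γ 0 ≤ 1) :
    ph (1 / (2 * σ)) ((γ 0) ^ 2) ≤ (1 / (2 * σ) - 1) * t ^ 2 := by
  have hs := h.s400
  have hs0 := h.s0
  have ht0 := h.t0
  have hx0 := h.x0
  have hN := h.N2
  have h1 := h.low hx
  have hsN := h.s1
  set N : ℝ := (m : ℝ) + 1 with hNdef
  set r : ℝ := 1 / (2 * σ) with hr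
  have hrs : r * σ = 1 / 2 := by rw [hr]; field_simp
  have hrN : 50 * N ^ 2 ≤ r := by
    rw [hr, le_div_iff₀ (by positivity)]
    linarith
  have hr2 : 2 ≤ r := by nlinarith
  have hb0 : 0 ≤ (γ 0) ^ 2 := sq_nonneg _
  have hb1 : (γ 0) ^ 2 ≤ 1 := by nlinarith
  rcases le_total (N * t) 1 with hw | hw
  · have h2 := (E0.main.1 r ((γ 0) ^ 2) hr2 hb0 hb1).1
    have h3 : 1 - (γ 0) ^ 2 ≤ σ * (10 * (N * t)) := by
      refine h1.trans (mul_le_mul_of_nonneg_left ?_ hs0.le)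
      have : 0 ≤ N * t := by positivity
      nlinarith
    refine h2.trans ?_
    have h4 : (1 - (γ 0) ^ 2) ^ 2 ≤ (σ * (10 * (N * t))) ^ 2 := by
      apply pow_le_pow_left₀ (by linarith) h3
    calc r * (r - 1) / 2 * (1 - (γ 0) ^ 2) ^ 2 ≤ r * (r - 1) / 2 * (σ * (10 * (N * t))) ^ 2 := by
          apply mul_le_mul_of_nonneg_left h4
          have : 0 ≤ r - 1 := by linarith
          positivity
      _ = (r - 1) * t ^ 2 * ((r * σ) * (σ * (50 * N ^ 2))) := by ring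
      _ ≤ (r - 1) * t ^ 2 * 1 := by
          apply mul_le_mul_of_nonneg_left
          · rw [hrs]; linarith
          · have : 0 ≤ r - 1 := by linarith
            positivity
      _ = _ := by ring
  · have h3 : 1 - (γ 0) ^ 2 ≤ σ * (10 * (N * t) ^ 2) := by
      refine h1.trans (mul_le_mul_of_nonneg_left ?_ hs0.le)
      nlinarith
    have h4 : ph r ((γ 0) ^ 2) ≤ r * (1 - (γ 0) ^ 2) := by
      unfold ph
      have : ((γ 0) ^ 2) ^ r ≤ 1 := Real.rpow_le_one hb0 hb1 (by linarith)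
      linarith
    refine h4.trans ?_
    calc r * (1 - (γ 0) ^ 2) ≤ r * (σ * (10 * (N * t) ^ 2)) := by gcongr
      _ = (r * σ) * (10 * N ^ 2) * t ^ 2 := by ring
      _ = 5 * N ^ 2 * t ^ 2 := by rw [hrs]; ring
      _ ≤ (r - 1) * t ^ 2 := by
          apply mul_le_mul_of_nonneg_right _ (sq_nonneg t)
          nlinarith

end Hy

end Pool.Agent.L5helper95.BB
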