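import Pool.Agent.L5helper95.BB.S2

/-!
# The pointwise inequality for `p ≥ 100 n ^ 2`: the cases with `γ 0 ≥ 1`
-/

set_option autoImplicit false

namespace Pool.Agent.L5helper95.BB

open Finset
open Pool.Agent.Y282.RB

lemma exp_a : Real.exp 2.27 ≤ 9.7 := by
  have h1 : Real.exp 2.27 ^ 100 ≤ (9.7:ℝ) ^ 100 := by
    rw [← Real.exp_nat_mul]
    have e : ((100 : ℕ) : ℝ) * 2.27 = ((227 : ℕ) : ℝ) * 1 := by norm_num
    rw [e, Real.exp_nat_mul]
    have h2 : Real.exp 1 ≤ 2.7182818286 := Real.exp_one_lt_d9.le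
    calc Real.exp 1 ^ 227 ≤ (2.7182818286 : ℝ) ^ 227 := by gcongr
      _ ≤ _ := by norm_num
  exact le_of_pow_le_pow_left₀ (by norm_num) (by norm_num) h1

lemma exp_b : Real.exp 2.7 ≤ 15 := by
  have h1 : Real.exp 2.7 ^ 10 ≤ (15:ℝ) ^ 10 := by
    rw [← Real.exp_nat_mul]
    have e : ((10 : ℕ) : ℝ) * 2.7 = ((27 : ℕ) : ℝ) * 1 := by norm_num
    rw [e, Real.exp_nat_mul]
    have h2 : Real.exp 1 ≤ 2.7182818286 := Real.exp_one_lt_d9.le
    calc Real.exp 1 ^ 27 ≤ (2.7182818286 : ℝ) ^ 27 := by gcongr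
      _ ≤ _ := by norm_num
  exact le_of_pow_le_pow_left₀ (by norm_num) (by norm_num) h1

lemma exp_c : Real.exp 2 ≤ 7.4 := by
  have e : (2:ℝ) = ((2 : ℕ) : ℝ) * 1 := by norm_num
  rw [e, Real.exp_nat_mul]
  have h2 : Real.exp 1 ≤ 2.7182818286 := Real.exp_one_lt_d9.le
  calc Real.exp 1 ^ 2 ≤ (2.7182818286 : ℝ) ^ 2 := by gcongr
    _ ≤ _ := by norm_num

namespace Hy

variable {m : ℕ} {σ : ℝ} {γ : ℕ → ℝ} {t : ℝ}

/-- `b ^ r ≤ exp ((b - 1) r)` -/
lemma pow_le {b r : ℝ} (hb : 0 < b) (hr : 0 ≤ r) : b ^ r ≤ Real.exp (r * (b - 1)) := by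
  rw [Real.rpow_def_of_pos hb]
  apply Real.exp_le_exp.mpr
  have := Real.log_le_sub_one_of_pos hb
  nlinarith

lemma up1 (h : Hy m σ γ t) (hx : 1 ≤ γ 0) (hw : ((m : ℝ) + 1) * t ≤ 3 / 4) :
    ph (1 / (2 * σ)) ((γ 0) ^ 2) ≤ (1 / (2 * σ) - 1) * t ^ 2 := by
  have hs := h.s400
  have hs0 := h.s0
  have ht0 := h.t0
  have hN := h.N2
  have hsN := h.s1
  have hm : (1:ℝ) ≤ m := by exact_mod_cast h.m1
  have hid := h.idn
  have hD := h.D_le
  have h1 : ∑ j ∈ range m, kk σ (j + 1) * (1 - (yy σ γ (j + 1)) ^ 2) ≤ 6 * γ 0 * m * t := by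
    calc ∑ j ∈ range m, kk σ (j + 1) * (1 - (yy σ γ (j + 1)) ^ 2)
        ≤ ∑ _j ∈ range m, (6 * γ 0 * t) := by
          refine sum_le_sum fun j hj => ?_
          rw [mem_range] at hj
          have a1 := h.u_dist hj
          have a2 := kk_le3 hs0.le (by linarith) j
          have a3 := (kk_pos hs0 (by linarith) (j + 1)).le
          set u := yy σ γ (j + 1)
          have hj0 : (0:ℝ) ≤ j := Nat.cast_nonneg j
          have a4 : 1 - u ^ 2 ≤ 2 * γ 0 * (((j : ℝ) + 2) * t) := by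
            have c1 : -(u - γ 0) ≤ ((j : ℝ) + 2) * t := (neg_le_abs _).trans a1
            nlinarith [sq_nonneg (u - γ 0)]
          calc kk σ (j + 1) * (1 - u ^ 2) ≤ kk σ (j + 1) * (2 * γ 0 * (((j : ℝ) + 2) * t)) := by gcongr
            _ = (kk σ (j + 1) * ((j : ℝ) + 2)) * (2 * γ 0 * t) := by ring
            _ ≤ 3 * (2 * γ 0 * t) := mul_le_mul_of_nonneg_right a2 (by positivity)
            _ = _ := by ring
      _ = _ := by rw [sum_const, card_range, nsmul_eq_mul]; ring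
  set S := ∑ j ∈ range m, kk σ (j + 1) * (1 - (yy σ γ (j + 1)) ^ 2) with hS
  set N : ℝ := (m : ℝ) + 1 with hNdef
  set x := γ 0 with hxdef
  have hx0 : 0 ≤ x := by linarith
  have h2 : (1 - σ) * S ≤ 6 * x * m * t := by
    have c : 0 ≤ 6 * x * m * t := by positivity
    nlinarith
  have h3 : 2 * x * (x - γ 1) ≤ 2 * x * t := by
    apply mul_le_mul_of_nonneg_left ((le_abs_self _).trans hD) (by positivity)
  have h4 : x ^ 2 - 1 ≤ σ * (6 * x * (N * t)) := by
    rw [hid]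
    apply mul_le_mul_of_nonneg_left _ hs0.le
    have c1 : 0 ≤ σ * (x - γ 1) ^ 2 := by positivity
    have c2 : 6 * x * (N * t) = 6 * x * m * t + 6 * x * t := by rw [hNdef]; ring
    have c3 : 0 ≤ x * t := by positivity
    linarith
  -- bound for x
  have hw0 : 0 ≤ N * t := by positivity
  have hx1 : x ≤ 1.006 := by
    by_contra hc
    push Not at hc
    have c1 : σ * (6 * x * (N * t)) ≤ (1 / 400) * (6 * x * (3 / 4)) := by
      apply mul_le_mul hs _ (by positivity) (by norm_num)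
      gcongr
    nlinarith
  set r : ℝ := 1 / (2 * σ) with hr
  have hrs : r * σ = 1 / 2 := by rw [hr]; field_simp
  have hrN : 50 * N ^ 2 ≤ r := by
    rw [hr, le_div_iff₀ (by positivity)]
    linarith
  have hr2 : 2 ≤ r := by nlinarith
  have hb1 : 1 ≤ x ^ 2 := by nlinarith
  have h5 := E0.main.2 r (x ^ 2) hr2 hb1
  have h6 : (x ^ 2) ^ r ≤ 9.7 := by
    refine (pow_le (by linarith) (by linarith)).trans (le_trans (Real.exp_le_exp.mpr ?_) exp_a)
    calc r * (x ^ 2 - 1) ≤ r * (σ * (6 * x * (N * t))) := by gcongr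
      _ = (r * σ) * (6 * x * (N * t)) := by ring
      _ = 3 * x * (N * t) := by rw [hrs]; ring
      _ ≤ 3 * 1.006 * (3 / 4) := by gcongr
      _ ≤ 2.27 := by norm_num
  refine h5.trans ?_
  have h7 : (x ^ 2 - 1) ^ 2 ≤ (σ * (6 * x * (N * t))) ^ 2 := pow_le_pow_left₀ (by linarith) h4 2
  have hr1 : 0 ≤ r - 1 := by linarith
  calc r * (r - 1) / 2 * (x ^ 2) ^ r * (x ^ 2 - 1) ^ 2
      ≤ r * (r - 1) / 2 * 9.7 * (σ * (6 * x * (N * t))) ^ 2 := by
        apply mul_le_mul _ h7 (sq_nonneg _) (by positivity)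
        apply mul_le_mul_of_nonneg_left h6 (by positivity)
    _ = (r - 1) * t ^ 2 * ((r * σ) * (18 * 9.7) * x ^ 2 * (σ * N ^ 2)) := by ring
    _ ≤ (r - 1) * t ^ 2 * 1 := by
        apply mul_le_mul_of_nonneg_left _ (by positivity)
        rw [hrs]
        have c1 : σ * N ^ 2 ≤ 1 / 100 := by linarith
        have c2 : x ^ 2 ≤ 1.02 := by nlinarith
        calc (1 / 2 : ℝ) * (18 * 9.7) * x ^ 2 * (σ * N ^ 2) ≤ (1 / 2 : ℝ) * (18 * 9.7) * 1.02 * (1 / 100) := by
              gcongr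
          _ ≤ 1 := by norm_num
    _ = _ := by ring

lemma up2 (h : Hy m σ γ t) (hx : 1 ≤ γ 0) (hw : 3 / 4 ≤ ((m : ℝ) + 1) * t) (ht1 : t ≤ 1) :
    ph (1 / (2 * σ)) ((γ 0) ^ 2) ≤ (1 / (2 * σ) - 1) * t ^ 2 := by
  have hs := h.s400
  have hs0 := h.s0
  have ht0 := h.t0
  have hN := h.N2
  have hsN := h.s1
  have hm : (1:ℝ) ≤ m := by exact_mod_cast h.m1
  have hid := h.idn
  have hD := h.D_le
  set x := γ 0 with hxdef
  have hx0 : 0 ≤ x := by linarith
  have htpos : 0 < t := by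
    by_contra hc
    push Not at hc
    have : t = 0 := le_antisymm hc ht0
    rw [this, mul_zero] at hw
    norm_num at hw
  have h1 : ∑ j ∈ range m, kk σ (j + 1) * (1 - (yy σ γ (j + 1)) ^ 2) ≤
      10 / 3 + 2 * Real.log (((m : ℝ) + 1) * (2 * x * t)) := by
    refine split (a := 2 * x * t) (by positivity) m _ (fun j hj => ?_) (fun j hj => ?_) (by nlinarith)
    · have a1 := h.u_dist hj
      have a2 := kk_le3 hs0.le (by linarith) j
      have a3 := (kk_pos hs0 (by linarith) (j + 1)).le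
      set u := yy σ γ (j + 1)
      have hj0 : (0:ℝ) ≤ j := Nat.cast_nonneg j
      have a4 : 1 - u ^ 2 ≤ 2 * x * (((j : ℝ) + 2) * t) := by
        have c1 : -(u - γ 0) ≤ ((j : ℝ) + 2) * t := (neg_le_abs _).trans a1
        rw [← hxdef] at c1
        nlinarith [sq_nonneg (u - x)]
      calc kk σ (j + 1) * (1 - u ^ 2) ≤ kk σ (j + 1) * (2 * x * (((j : ℝ) + 2) * t)) := by gcongr
        _ = (kk σ (j + 1) * ((j : ℝ) + 2)) * (2 * x * t) := by ring
        _ ≤ 3 * (2 * x * t) := mul_le_mul_of_nonneg_right a2 (by positivity)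
    · have a3 := (kk_pos hs0 (by linarith) (j + 1)).le
      refine le_trans ?_ (kk_le hs0.le (by linarith) j)
      nlinarith [sq_nonneg (yy σ γ (j + 1))]
  set S := ∑ j ∈ range m, kk σ (j + 1) * (1 - (yy σ γ (j + 1)) ^ 2) with hS
  set N : ℝ := (m : ℝ) + 1 with hNdef
  have hNx : 1 ≤ N * (2 * x * t) := by nlinarith
  have hlog0 : 0 ≤ Real.log (N * (2 * x * t)) := Real.log_nonneg hNx
  have h2 : (1 - σ) * S ≤ 10 / 3 + 2 * Real.log (N * (2 * x * t)) := by nlinarith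
  have h3 : 2 * x * (x - γ 1) ≤ 2 * x * t := by
    apply mul_le_mul_of_nonneg_left ((le_abs_self _).trans hD) (by positivity)
  have h4 : x ^ 2 - 1 ≤ σ * (10 / 3 + 2 * Real.log (N * (2 * x * t)) + 2 * x * t) := by
    rw [hid]
    apply mul_le_mul_of_nonneg_left _ hs0.le
    have c1 : 0 ≤ σ * (x - γ 1) ^ 2 := by positivity
    linarith
  -- bound for x
  have hx1 : x ≤ 1.02 := by
    have c1 : Real.log (N * (2 * x * t)) ≤ N * (2 * x) := by
      have := Real.log_le_sub_one_of_pos (show 0 < N * (2 * x * t) by linarith)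
      have c2 : N * (2 * x * t) ≤ N * (2 * x) := by
        apply mul_le_mul_of_nonneg_left _ (by linarith)
        nlinarith
      linarith
    have c3 : 10 / 3 + 2 * Real.log (N * (2 * x * t)) + 2 * x * t ≤ x * (10 / 3 * N ^ 2) := by
      have d1 : 2 * x * t ≤ 2 * x := by nlinarith
      have d2 : (10:ℝ) / 3 ≤ x * (10 / 3) := by linarith
      have d3 : (16:ℝ) / 3 + 4 * N ≤ 10 / 3 * N ^ 2 := by nlinarith
      have d4 := mul_le_mul_of_nonneg_left d3 hx0
      nlinarith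
    have c4 : x ^ 2 - 1 ≤ x / 30 := by
      refine h4.trans ?_
      calc σ * (10 / 3 + 2 * Real.log (N * (2 * x * t)) + 2 * x * t) ≤ σ * (x * (10 / 3 * N ^ 2)) := by gcongr
        _ = x / 30 * (σ * (100 * N ^ 2)) := by ring
        _ ≤ x / 30 * 1 := mul_le_mul_of_nonneg_left hsN (by positivity)
        _ = _ := by ring
    by_contra hc
    push Not at hc
    nlinarith
  set r : ℝ := 1 / (2 * σ) with hr
  have hrs : r * σ = 1 / 2 := by rw [hr]; field_simp
  have hrN : 50 * N ^ 2 ≤ r := by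
    rw [hr, le_div_iff₀ (by positivity)]
    linarith
  have hr2 : 2 ≤ r := by nlinarith
  have hb1 : 1 ≤ x ^ 2 := by nlinarith
  have h5 : ph r (x ^ 2) ≤ (x ^ 2) ^ r := by
    unfold ph
    have : 0 ≤ r * (x ^ 2 - 1) := by
      apply mul_nonneg (by linarith) (by linarith)
    linarith
  have h6 : (x ^ 2) ^ r ≤ 15 * (N * (2 * x * t)) := by
    refine (pow_le (by linarith) (by linarith)).trans ?_
    have c1 : r * (x ^ 2 - 1) ≤ 2.7 + Real.log (N * (2 * x * t)) := by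
      calc r * (x ^ 2 - 1) ≤ r * (σ * (10 / 3 + 2 * Real.log (N * (2 * x * t)) + 2 * x * t)) := by gcongr
        _ = (r * σ) * (10 / 3 + 2 * Real.log (N * (2 * x * t)) + 2 * x * t) := by ring
        _ = 5 / 3 + Real.log (N * (2 * x * t)) + x * t := by rw [hrs]; ring
        _ ≤ _ := by
            have : x * t ≤ 1.02 * 1 := by gcongr
            linarith
    calc Real.exp (r * (x ^ 2 - 1)) ≤ Real.exp (2.7 + Real.log (N * (2 * x * t))) := Real.exp_le_exp.mpr c1
      _ = Real.exp 2.7 * (N * (2 * x * t)) := by rw [Real.exp_add, Real.exp_log (by linarith)]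
      _ ≤ _ := by
          apply mul_le_mul_of_nonneg_right exp_b (by linarith)
  refine h5.trans (h6.trans ?_)
  have hw0 : 0 ≤ N * t := by positivity
  have c5 : 15 * (N * (2 * x * t)) ≤ 31 * (N * t) := by
    have : N * (2 * x * t) = 2 * x * (N * t) := by ring
    rw [this]
    nlinarith
  have c6 : 49 * (N * t) ^ 2 ≤ (r - 1) * t ^ 2 := by
    have : 49 * N ^ 2 ≤ r - 1 := by nlinarith
    calc 49 * (N * t) ^ 2 = 49 * N ^ 2 * t ^ 2 := by ring
      _ ≤ _ := by gcongr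
  nlinarith

end Hy

end Pool.Agent.L5helper95.BB
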