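import Pool.Agent.L5helper95.BB.S3

/-!
# The pointwise inequality for `p ≥ 100 n ^ 2`: large `T` and conclusion
-/

set_option autoImplicit false

namespace Pool.Agent.L5helper95.BB

open Finset
open Pool.Agent.Y282.RB

/-- one step of the recursion -/
lemma rec_step {σ : ℝ} (h0 : 0 < σ) (h1 : σ ≤ 1 / 2) (γ : ℕ → ℝ) (j : ℕ) :
    |γ (j + 1)| / ((j : ℝ) + 1) ≤ (1 + 2 * σ) * (|γ (j + 2)| / ((j : ℝ) + 2)) +
      (1 + σ) * (kk σ (j + 1) * |yy σ γ (j + 1)|) := by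
  have hj : (0:ℝ) ≤ j := Nat.cast_nonneg j
  set i : ℝ := (j : ℝ) + 1 with hi
  have hi1 : 1 ≤ i := by linarith
  have e1 : (j : ℝ) + 2 = i + 1 := by rw [hi]; ring
  rw [e1]
  set u := yy σ γ (j + 1) with hu
  have hd : 0 < i + 1 - σ := by linarith
  have e2 : γ (j + 1) = ((2 * i + 1) * u - (i + σ) * γ (j + 2)) / (i + 1 - σ) := by
    have hu2 : u = ((i + 1 - σ) * γ (j + 1) + (i + σ) * γ (j + 2)) / (2 * i + 1) := by
      rw [hu]
      unfold yy th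
      push_cast
      rw [← hi]
      have h3 : (2 * i + 1) ≠ 0 := by linarith
      field_simp
      ring
    rw [hu2]
    have h3 : (2 * i + 1) ≠ 0 := by linarith
    field_simp
    ring
  have e3 : |γ (j + 1)| ≤ ((2 * i + 1) * |u| + (i + σ) * |γ (j + 2)|) / (i + 1 - σ) := by
    rw [e2, abs_div, abs_of_pos hd]
    apply div_le_div_of_nonneg_right _ hd.le
    refine (abs_sub _ _).trans (le_of_eq ?_)
    rw [abs_mul, abs_mul, abs_of_pos (by linarith : 0 < 2 * i + 1), abs_of_pos (by linarith : 0 < i + σ)]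
  have e4 : kk σ (j + 1) = (2 * i + 1) / ((i + σ) * (i + 1 - σ)) := by
    unfold kk
    push_cast
    rw [← hi]
  have hu0 := abs_nonneg u
  have hg0 := abs_nonneg (γ (j + 2))
  have e5 : (i + σ) / (i * (i + 1 - σ)) ≤ (1 + 2 * σ) / (i + 1) := by
    rw [div_le_div_iff₀ (by positivity) (by positivity)]
    nlinarith [mul_nonneg h0.le (by nlinarith : (0:ℝ) ≤ 2 * i ^ 2 - 2 * σ * i - 1)]
  have e6 : (2 * i + 1) / (i * (i + 1 - σ)) ≤ (1 + σ) * kk σ (j + 1) := by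
    rw [e4, ← mul_div_assoc, div_le_div_iff₀ (by positivity) (by positivity)]
    have c1 : i + σ ≤ (1 + σ) * i := by nlinarith
    have c2 : 0 ≤ (2 * i + 1) * (i + 1 - σ) := by positivity
    nlinarith [mul_le_mul_of_nonneg_left c1 c2]
  have e7 : |γ (j + 1)| / i ≤ ((2 * i + 1) / (i * (i + 1 - σ))) * |u| +
      ((i + σ) / (i * (i + 1 - σ))) * |γ (j + 2)| := by
    rw [div_le_iff₀ (by linarith)]
    refine e3.trans (le_of_eq ?_)
    field_simp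
  calc |γ (j + 1)| / i ≤ _ := e7
    _ ≤ ((1 + σ) * kk σ (j + 1)) * |u| + ((1 + 2 * σ) / (i + 1)) * |γ (j + 2)| := by gcongr
    _ = _ := by ring

lemma rec_all {σ : ℝ} (h0 : 0 < σ) (h1 : σ ≤ 1 / 2) (γ : ℕ → ℝ) (m : ℕ) :
    |γ 1| ≤ (1 + 2 * σ) ^ m * (|γ (m + 1)| / ((m : ℝ) + 1) +
      (1 + σ) * ∑ j ∈ range m, kk σ (j + 1) * |yy σ γ (j + 1)|) := by
  induction m with
  | zero => simp
  | succ m ih =>
    have h2 := rec_step h0 h1 γ m
    rw [sum_range_succ]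
    set S := ∑ j ∈ range m, kk σ (j + 1) * |yy σ γ (j + 1)| with hS
    have hS0 : 0 ≤ S := sum_nonneg fun j _ =>
      mul_nonneg (kk_pos h0 (by linarith) _).le (abs_nonneg _)
    have hk0 : 0 ≤ kk σ (m + 1) * |yy σ γ (m + 1)| :=
      mul_nonneg (kk_pos h0 (by linarith) _).le (abs_nonneg _)
    have hp : 0 ≤ (1 + 2 * σ) ^ m := by positivity
    refine ih.trans ?_
    rw [pow_succ, mul_assoc]
    apply mul_le_mul_of_nonneg_left _ hp
    have e : ((m + 1 : ℕ) : ℝ) + 1 = (m : ℝ) + 2 := by push_cast; ring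
    rw [e]
    have e2 : γ (m + 1 + 1) = γ (m + 2) := rfl
    rw [e2]
    have h3 : 0 ≤ 2 * σ * ((1 + σ) * (S + kk σ (m + 1) * |yy σ γ (m + 1)|)) := by positivity
    linarith

namespace Hy

variable {m : ℕ} {σ : ℝ} {γ : ℕ → ℝ} {t : ℝ}

lemma log_le (N : ℝ) (hN : 2 ≤ N) : 2 * Real.log N + 1 / 3 ≤ N := by
  have h1 : Real.log 2 ≤ 0.6931471808 := Real.log_two_lt_d9.le
  have h2 : Real.log N = Real.log 2 + Real.log (N / 2) := by
    rw [← Real.log_mul (by norm_num) (by positivity)]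
    congr 1
    ring
  have h3 := Real.log_le_sub_one_of_pos (show 0 < N / 2 by positivity)
  linarith

lemma aux1 {σ N : ℝ} (h0 : 0 < σ) (hN : 2 ≤ N) (h : σ * (100 * N ^ 2) ≤ 1) : σ * N ≤ 1 / 200 := by
  have h1 : σ * N * 2 ≤ σ * N * N := by
    apply mul_le_mul_of_nonneg_left hN (by positivity)
  nlinarith

lemma expb {y : ℝ} (hy0 : 0 ≤ y) (hy1 : y ≤ 1 / 40) : Real.exp y ≤ 1 + 1.1 * y := by
  have := Real.exp_bound_div_one_sub_of_interval hy0 (by linarith)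
  refine this.trans ?_
  rw [div_le_iff₀ (by linarith)]
  nlinarith

/-- the factor -/
lemma kap {σ : ℝ} (h0 : 0 < σ) (hs : σ ≤ 1 / 400) (m : ℕ) (hm : (1:ℝ) ≤ m)
    (h : σ * (100 * ((m : ℝ) + 1) ^ 2) ≤ 1) :
    (1 + 2 * σ) ^ m * (1 + σ) ≤ 1.011 ∧
    ((1 + 2 * σ) ^ m * (1 + σ)) ^ 2 ≤ (1 - σ) * (1 + 6 * (σ * ((m : ℝ) + 1))) := by
  have hsigN := aux1 h0 (by linarith : (2:ℝ) ≤ (m : ℝ) + 1) h
  set N : ℝ := (m : ℝ) + 1 with hNdef
  have hN0 : 0 < N := by positivity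
  have hc : 0 ≤ σ * N := by positivity
  set κ : ℝ := (1 + 2 * σ) ^ m * (1 + σ) with hκ
  have hκ0 : 0 ≤ κ := by positivity
  have hκ1 : κ ≤ Real.exp (2 * (σ * N)) := by
    have c1 : (1 + 2 * σ) ^ m ≤ Real.exp (2 * σ) ^ m := by
      gcongr
      linarith [Real.add_one_le_exp (2 * σ)]
    have c2 : 1 + σ ≤ Real.exp σ := by linarith [Real.add_one_le_exp σ]
    calc κ ≤ Real.exp (2 * σ) ^ m * Real.exp σ := mul_le_mul c1 c2 (by linarith) (by positivity)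
      _ = Real.exp (m * (2 * σ) + σ) := by rw [← Real.exp_nat_mul, ← Real.exp_add]
      _ ≤ Real.exp (2 * (σ * N)) := by
          apply Real.exp_le_exp.mpr
          rw [hNdef]
          linarith
  constructor
  · refine hκ1.trans ((expb (by positivity) (by linarith)).trans ?_)
    linarith
  · have c1 : κ ^ 2 ≤ Real.exp (4 * (σ * N)) := by
      calc κ ^ 2 ≤ (Real.exp (2 * (σ * N))) ^ 2 := pow_le_pow_left₀ hκ0 hκ1 2
        _ = Real.exp (4 * (σ * N)) := by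
            rw [← Real.exp_nat_mul]
            congr 1
            push_cast
            ring
    have c2 := expb (y := 4 * (σ * N)) (by positivity) (by linarith)
    have c3 : σ ≤ σ * N / 2 := by
      have : σ * 2 ≤ σ * N := mul_le_mul_of_nonneg_left (by linarith) h0.le
      linarith
    have c4 : σ * (6 * (σ * N)) ≤ 1 / 400 * (6 * (σ * N)) :=
      mul_le_mul_of_nonneg_right hs (by positivity)
    have c5 : (1 - σ) * (1 + 6 * (σ * N)) = 1 - σ + 6 * (σ * N) - σ * (6 * (σ * N)) := by ring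
    rw [c5]
    linarith

/-- a square -/
lemma sqb {σ x κ u L : ℝ} (hs : σ < 1) (hlam : κ ^ 2 ≤ (1 - σ) * L) :
    2 * x * κ * u ≤ (1 - σ) * u ^ 2 + x ^ 2 * L := by
  have c2 : 0 < 1 - σ := by linarith
  have c3 : 0 ≤ ((1 - σ) * u - x * κ) ^ 2 := sq_nonneg _
  have c4 : x ^ 2 * κ ^ 2 ≤ x ^ 2 * ((1 - σ) * L) := mul_le_mul_of_nonneg_left hlam (sq_nonneg x)
  have c5 : (1 - σ) * (2 * x * κ * u) ≤ (1 - σ) * ((1 - σ) * u ^ 2 + x ^ 2 * L) := by
    have e : ((1 - σ) * u - x * κ) ^ 2 = (1 - σ) * ((1 - σ) * u ^ 2) - (1 - σ) * (2 * x * κ * u) + x ^ 2 * κ ^ 2 := by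
      ring
    rw [e] at c3
    have e2 : (1 - σ) * ((1 - σ) * u ^ 2 + x ^ 2 * L) = (1 - σ) * ((1 - σ) * u ^ 2) + x ^ 2 * ((1 - σ) * L) := by
      ring
    rw [e2]
    linarith
  exact le_of_mul_le_mul_left c5 c2

/-- the bound for `X` -/
lemma Xb (h : Hy m σ γ t) (hz : (γ (m + 1)) ^ 2 ≤ (γ 0) ^ 2) :
    (1 - σ) * ∑ j ∈ range m, kk σ (j + 1) * (1 - (yy σ γ (j + 1)) ^ 2) +
      2 * γ 0 * (γ 0 - γ 1) - σ * (γ 0 - γ 1) ^ 2 ≤
    (γ 0) ^ 2 * (3.011 + (∑ j ∈ range m, kk σ (j + 1)) * (1 + 6 * (σ * ((m : ℝ) + 1)))) +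
      ∑ j ∈ range m, kk σ (j + 1) := by
  have hs := h.s400
  have hs0 := h.s0
  have hN := h.N2
  have hm : (1:ℝ) ≤ m := by exact_mod_cast h.m1
  have hrec := rec_all hs0 (by linarith) γ m
  have hz' : |γ (m + 1)| ≤ γ 0 := abs_le_of_sq_le_sq hz h.x0
  have hx0 := h.x0
  obtain ⟨hk1, hk2⟩ := kap hs0 hs m hm h.s1
  have hk0 : 0 ≤ (1 + 2 * σ) ^ m * (1 + σ) := by positivity
  have hU0 : 0 ≤ ∑ j ∈ range m, kk σ (j + 1) * |yy σ γ (j + 1)| := sum_nonneg fun j _ =>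
    mul_nonneg (kk_pos hs0 (by linarith) _).le (abs_nonneg _)
  have hB : |γ 1| ≤ ((1 + 2 * σ) ^ m * (1 + σ)) * (γ 0 / ((m : ℝ) + 1) +
      ∑ j ∈ range m, kk σ (j + 1) * |yy σ γ (j + 1)|) := by
    refine hrec.trans ?_
    rw [mul_assoc]
    apply mul_le_mul_of_nonneg_left _ (by positivity)
    have c1 : |γ (m + 1)| / ((m : ℝ) + 1) ≤ γ 0 / ((m : ℝ) + 1) := by gcongr
    have c2 : 0 ≤ σ * (γ 0 / ((m : ℝ) + 1)) := by positivity
    have e : (1 + σ) * (γ 0 / ((m : ℝ) + 1) + ∑ j ∈ range m, kk σ (j + 1) * |yy σ γ (j + 1)|) =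
      γ 0 / ((m : ℝ) + 1) + σ * (γ 0 / ((m : ℝ) + 1)) +
        (1 + σ) * ∑ j ∈ range m, kk σ (j + 1) * |yy σ γ (j + 1)| := by ring
    rw [e]
    linarith
  have hsum : (1 - σ) * ∑ j ∈ range m, kk σ (j + 1) * (1 - (yy σ γ (j + 1)) ^ 2) +
      2 * γ 0 * ((1 + 2 * σ) ^ m * (1 + σ)) * ∑ j ∈ range m, kk σ (j + 1) * |yy σ γ (j + 1)| ≤
      (∑ j ∈ range m, kk σ (j + 1)) * (1 + (γ 0) ^ 2 * (1 + 6 * (σ * ((m : ℝ) + 1)))) := by
    rw [mul_sum, mul_sum, ← sum_add_distrib, sum_mul]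
    refine sum_le_sum fun j _ => ?_
    have a3 := (kk_pos hs0 (by linarith) (j + 1)).le
    have e : (1 - σ) * (kk σ (j + 1) * (1 - (yy σ γ (j + 1)) ^ 2)) +
        2 * γ 0 * ((1 + 2 * σ) ^ m * (1 + σ)) * (kk σ (j + 1) * |yy σ γ (j + 1)|) =
        kk σ (j + 1) * ((1 - σ) * (1 - |yy σ γ (j + 1)| ^ 2) +
          2 * γ 0 * ((1 + 2 * σ) ^ m * (1 + σ)) * |yy σ γ (j + 1)|) := by
      rw [sq_abs]; ring
    rw [e]
    apply mul_le_mul_of_nonneg_left _ a3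
    have c1 := sqb (x := γ 0) (u := |yy σ γ (j + 1)|) (by linarith : σ < 1) hk2
    linarith
  set U := ∑ j ∈ range m, kk σ (j + 1) * |yy σ γ (j + 1)| with hU
  set S := ∑ j ∈ range m, kk σ (j + 1) * (1 - (yy σ γ (j + 1)) ^ 2) with hS
  set K := ∑ j ∈ range m, kk σ (j + 1) with hK
  set κ := (1 + 2 * σ) ^ m * (1 + σ) with hκ
  set N : ℝ := (m : ℝ) + 1 with hNdef
  have c1 : 2 * γ 0 * (γ 0 - γ 1) ≤ 2 * (γ 0) ^ 2 + 2 * γ 0 * |γ 1| := by
    have : γ 0 * (-γ 1) ≤ γ 0 * |γ 1| := mul_le_mul_of_nonneg_left (neg_le_abs _) hx0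
    linarith
  have c2 : 2 * γ 0 * |γ 1| ≤ 2 * γ 0 * (κ * (γ 0 / N + U)) := by
    apply mul_le_mul_of_nonneg_left hB (by linarith)
  have c3 : 2 * γ 0 * (κ * (γ 0 / N)) ≤ (γ 0) ^ 2 * 1.011 := by
    have : γ 0 / N ≤ γ 0 / 2 := by gcongr
    calc 2 * γ 0 * (κ * (γ 0 / N)) ≤ 2 * γ 0 * (1.011 * (γ 0 / 2)) := by gcongr
      _ = _ := by ring
  have c4 : 0 ≤ σ * (γ 0 - γ 1) ^ 2 := by positivity
  have e1 : 2 * γ 0 * (κ * (γ 0 / N + U)) = 2 * γ 0 * (κ * (γ 0 / N)) + 2 * γ 0 * κ * U := by ring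
  have e2 : (γ 0) ^ 2 * (3.011 + K * (1 + 6 * (σ * N))) + K =
      2 * (γ 0) ^ 2 + (γ 0) ^ 2 * 1.011 + K * (1 + (γ 0) ^ 2 * (1 + 6 * (σ * N))) := by ring
  rw [e2]
  linarith

/-- the numerical conclusion -/
lemma solve {σ N K X : ℝ} (h0 : 0 < σ) (hN : 2 ≤ N) (hsN : σ * (100 * N ^ 2) ≤ 1) (hK0 : 0 ≤ K)
    (hKK : K ≤ 2 * Real.log N + 1 / 3) (hX0 : 0 ≤ X)
    (hX : X ≤ (1 + σ * X) * (3.011 + K * (1 + 6 * (σ * N))) + K) :
    X ≤ 4 * Real.log N + 4 := by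
  have hKN : K ≤ N := hKK.trans (log_le N hN)
  have hsigN := aux1 h0 hN hsN
  have hN0 : 0 < N := by linarith
  have hKsn : K * (6 * (σ * N)) ≤ 0.06 := by
    have c1 : K * (6 * (σ * N)) ≤ N * (6 * (σ * N)) := by gcongr
    have c2 : N * (6 * (σ * N)) = 6 * (σ * N ^ 2) := by ring
    linarith
  set B : ℝ := 3.071 + K with hBd
  have hB0 : 0 ≤ B := by positivity
  have hX3 : X ≤ (1 + σ * X) * B + K := by
    refine hX.trans ?_
    have : 0 ≤ 1 + σ * X := by positivity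
    have c2 : 3.011 + K * (1 + 6 * (σ * N)) ≤ B := by rw [hBd]; linarith
    gcongr
  have c1 : B ≤ 2.5355 * N := by rw [hBd]; linarith
  have c2 : B + K ≤ 3.5355 * N := by rw [hBd]; linarith
  have hBN : σ * B * (B + K) ≤ 0.09 := by
    calc σ * B * (B + K) ≤ σ * (2.5355 * N) * (3.5355 * N) := by gcongr
      _ = (σ * (100 * N ^ 2)) * (2.5355 * 3.5355 / 100) := by ring
      _ ≤ 1 * (2.5355 * 3.5355 / 100) := by gcongr
      _ ≤ 0.09 := by norm_num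
  have hsB : σ * B ≤ 0.02 := by
    calc σ * B ≤ σ * (2.5355 * N) := by gcongr
      _ = 2.5355 * (σ * N) := by ring
      _ ≤ 0.02 := by linarith
  have hX4 : X ≤ B + K + 0.1 := by
    have d1 : X * (1 - σ * B) ≤ B + K := by
      have : (1 + σ * X) * B + K = B + K + X * (σ * B) := by ring
      rw [this] at hX3
      linarith
    have d2 : B + K ≤ (B + K + 0.1) * (1 - σ * B) := by
      have e : (B + K + 0.1) * (1 - σ * B) = B + K + 0.1 - σ * B * (B + K) - 0.1 * (σ * B) := by ring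
      rw [e]
      linarith
    have d3 : 0 < 1 - σ * B := by linarith
    exact le_of_mul_le_mul_right (d1.trans d2) d3
  rw [hBd] at hX4
  linarith

/-- large `T` -/
lemma up3 (h : Hy m σ γ t) (hx : 1 ≤ γ 0) (hz : (γ (m + 1)) ^ 2 ≤ (γ 0) ^ 2) (ht1 : 1 ≤ t) :
    ph (1 / (2 * σ)) ((γ 0) ^ 2) ≤ (1 / (2 * σ) - 1) * t ^ 2 := by
  have hs0 := h.s0
  have hs := h.s400
  have hN := h.N2
  have hsN := h.s1
  have hid := h.idn
  have hX := h.Xb hz
  have hb1 : 1 ≤ (γ 0) ^ 2 := one_le_pow₀ hx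
  have hK0 : 0 ≤ ∑ j ∈ range m, kk σ (j + 1) := sum_nonneg fun j _ => (kk_pos hs0 (by linarith) _).le
  have hKK := KK_le hs0.le (by linarith) m
  set X : ℝ := (1 - σ) * ∑ j ∈ range m, kk σ (j + 1) * (1 - (yy σ γ (j + 1)) ^ 2) +
      2 * γ 0 * (γ 0 - γ 1) - σ * (γ 0 - γ 1) ^ 2 with hXd
  have hX0 : 0 ≤ X := by
    have : 0 ≤ σ * X := by rw [← hid]; linarith
    exact nonneg_of_mul_nonneg_right this hs0
  have e1 : (γ 0) ^ 2 = 1 + σ * X := by linarith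
  rw [e1] at hX
  have hX5 := solve hs0 hN hsN hK0 hKK hX0 hX
  clear hX hKK hK0 hz hid hXd
  clear_value X
  set N : ℝ := (m : ℝ) + 1 with hNdef
  have hN2 : (4:ℝ) ≤ N ^ 2 := by nlinarith
  set r : ℝ := 1 / (2 * σ) with hr
  have hrs : r * σ = 1 / 2 := by rw [hr]; field_simp
  have hrN : 50 * N ^ 2 ≤ r := by
    rw [hr, le_div_iff₀ (by positivity)]
    linarith
  have hr0 : 0 ≤ r := by linarith
  have h5 : ph r ((γ 0) ^ 2) ≤ ((γ 0) ^ 2) ^ r := by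
    unfold ph
    have : 0 ≤ r * ((γ 0) ^ 2 - 1) := mul_nonneg hr0 (by linarith)
    linarith
  have h6 : ((γ 0) ^ 2) ^ r ≤ 7.4 * N ^ 2 := by
    refine (pow_le (by linarith) hr0).trans ?_
    have c1 : r * ((γ 0) ^ 2 - 1) ≤ 2 + 2 * Real.log N := by
      have : r * ((γ 0) ^ 2 - 1) = (r * σ) * X := by rw [e1]; ring
      rw [this, hrs]
      linarith
    calc Real.exp (r * ((γ 0) ^ 2 - 1)) ≤ Real.exp (2 + 2 * Real.log N) := Real.exp_le_exp.mpr c1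
      _ = Real.exp 2 * N ^ 2 := by
          rw [Real.exp_add]
          congr 1
          have : 2 * Real.log N = Real.log (N ^ 2) := by
            rw [Real.log_pow]; push_cast; ring
          rw [this, Real.exp_log (by positivity)]
      _ ≤ _ := by
          apply mul_le_mul_of_nonneg_right exp_c (by positivity)
  refine h5.trans (h6.trans ?_)
  have c6 : r - 1 ≤ (r - 1) * t ^ 2 := by
    have : 1 ≤ t ^ 2 := one_le_pow₀ ht1
    exact le_mul_of_one_le_right (by linarith) this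
  linarith

end Hy

/-- the pointwise inequality for `n ≥ 2` and `p ≥ 100 n ^ 2` -/
theorem star {n : ℕ} (hn : 2 ≤ n) {p : ℝ} (hp : 100 * (n : ℝ) ^ 2 ≤ p) : Star n p := by
  have hn2 : (2:ℝ) ≤ n := by exact_mod_cast hn
  have hp0 : 400 ≤ p := by nlinarith
  obtain ⟨m, rfl⟩ : ∃ m, n = m + 1 := ⟨n - 1, by omega⟩
  refine C0.main (m + 1) p (by omega) (by linarith) fun γ hL hx hor => ?_
  have hpp : 0 < p := by linarith
  have h : Hy m (1 / p) γ (Real.sqrt (TT (m + 1) γ)) :=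
    { m1 := by omega
      s0 := by positivity
      s1 := by
        rw [div_mul_eq_mul_div, one_mul, div_le_one hpp]
        push_cast at hp
        exact hp
      L := hL
      x0 := hx
      t0 := Real.sqrt_nonneg _
      tt := Real.sq_sqrt (TT_nonneg _ _) }
  have e1 : p / 2 = 1 / (2 * (1 / p)) := by field_simp
  rw [e1, ← h.tt]
  rcases le_or_gt (γ 0) 1 with h1 | h1
  · exact h.caseA h1
  · have hz : (γ (m + 1)) ^ 2 ≤ (γ 0) ^ 2 := by
      rcases hor with h2 | h2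
      · linarith
      · exact h2
    rcases le_or_gt 1 (Real.sqrt (TT (m + 1) γ)) with h2 | h2
    · exact h.up3 h1.le hz h2
    · rcases le_or_gt (((m : ℝ) + 1) * Real.sqrt (TT (m + 1) γ)) (3 / 4) with h3 | h3
      · exact h.up1 h1.le h3
      · exact h.up2 h1.le h3.le h2.le

end Pool.Agent.L5helper95.BB
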